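import Pool.Agent.J4H58.OC.Stm2
import Pool.Agent.J4H21.OC.Sym

/-!
# Symmetric functions under the conditioned law; the variance in the direction `(1, ..., 1)` (OC-VAR)
-/

set_option autoImplicit false

namespace Pool.Agent.J4H98.OC

open MeasureTheory Set Filter Topology ProbabilityTheory
open scoped ENNReal
open Pool.Agent.J4H58.OC

variable {n : ℕ} {w : ℝ → ℝ}

theorem nu_prob (h : LD w) : IsProbabilityMeasure (nu w) := by
  constructor
  rw [nu, withDensity_apply _ MeasurableSet.univ, Measure.restrict_univ,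
    ← ofReal_integral_eq_lintegral_ofReal h.int (Eventually.of_forall h.nonneg), h.one]
  simp

theorem nu_atom (x : ℝ) : nu w {x} = 0 := by
  rw [nu, withDensity_apply _ (measurableSet_singleton x)]
  simp

theorem pn_prob (h : LD w) (n : ℕ) : IsProbabilityMeasure (pn w n) := by
  have := nu_prob h
  unfold pn
  infer_instance

theorem law_prob (h : LD w) (R : Fin n → Fin n → Prop) (h0 : pn w n (ord R) ≠ 0) :
    IsProbabilityMeasure (law w R) := by
  have := pn_prob h n
  have h1 : pn w n (ord R) ≠ ∞ := measure_ne_top _ _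
  constructor
  rw [law, Measure.map_apply (by fun_prop) MeasurableSet.univ]
  simp only [preimage_univ, Measure.smul_apply, Measure.restrict_apply MeasurableSet.univ,
    univ_inter, smul_eq_mul]
  exact ENNReal.inv_mul_cancel h0 h1

theorem int_law (R : Fin n → Fin n → Prop) (f : EuclideanSpace ℝ (Fin n) → ℝ)
    (hf : Continuous f) : ∫ x, f x ∂(law w R) =
      (pn w n (ord R)).toReal⁻¹ * ∫ x in ord R, f (WithLp.toLp 2 x) ∂(pn w n) := by
  rw [law, integral_map (by fun_prop) hf.aestronglyMeasurable, integral_smul_measure,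
    ENNReal.toReal_inv, smul_eq_mul]

/-- symmetric functions have the same mean under the conditioned law -/
theorem int_sym (h : LD w) (R : Fin n → Fin n → Prop) (h0 : pn w n (ord R) ≠ 0)
    (f : EuclideanSpace ℝ (Fin n) → ℝ) (hf : Continuous f)
    (hi : Integrable (fun x => f (WithLp.toLp 2 x)) (pn w n))
    (hs : ∀ (p : Equiv.Perm (Fin n)) (x : Fin n → ℝ),
      f (WithLp.toLp 2 fun i => x (p i)) = f (WithLp.toLp 2 x)) :
    ∫ x, f x ∂(law w R) = ∫ x, f (WithLp.toLp 2 x) ∂(pn w n) := by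
  have := nu_prob h
  have := pn_prob h n
  have h1 : (pn w n (ord R)).toReal ≠ 0 := ENNReal.toReal_ne_zero.2 ⟨h0, measure_ne_top _ _⟩
  have h2 := Pool.Agent.J4H21.OC.t_SYM n (nu w) inferInstance nu_atom R
    (fun x => f (WithLp.toLp 2 x)) hi hs
  rw [int_law R f hf]
  change _ * ∫ x in ord R, f (WithLp.toLp 2 x) ∂(Measure.pi fun _ => nu w) = _
  rw [h2]
  change (pn w n (ord R)).toReal⁻¹ * ((pn w n (ord R)).toReal * _) = _
  rw [inv_mul_cancel_left₀ h1]
  rfl

/-- integrability passes to the conditioned law -/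
theorem memLp_law (R : Fin n → Fin n → Prop) (h0 : pn w n (ord R) ≠ 0)
    (f : EuclideanSpace ℝ (Fin n) → ℝ) (hf : Continuous f) (p : ℝ≥0∞)
    (hi : MemLp (fun x => f (WithLp.toLp 2 x)) p (pn w n)) : MemLp f p (law w R) := by
  rw [law, memLp_map_measure_iff hf.aestronglyMeasurable (by fun_prop)]
  exact (hi.restrict _).smul_measure (ENNReal.inv_ne_top.2 h0)

/-- the sum `∑ φ (x i)` -/
theorem sum_mean (h : LD w) (n : ℕ) (φ : ℝ → ℝ) (hφ : MemLp φ 2 (nu w)) :
    MemLp (fun x : Fin n → ℝ => ∑ i, φ (x i)) 2 (pn w n) ∧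
    variance (fun x : Fin n → ℝ => ∑ i, φ (x i)) (pn w n) = n * variance φ (nu w) := by
  have := nu_prob h
  have := pn_prob h n
  have hm : ∀ i : Fin n, MeasurePreserving (fun x : Fin n → ℝ => x i) (pn w n) (nu w) := fun i =>
    measurePreserving_eval (fun _ : Fin n => nu w) i
  have hc : ∀ i : Fin n, MemLp (fun x : Fin n → ℝ => φ (x i)) 2 (pn w n) := fun i =>
    hφ.comp_measurePreserving (hm i)
  refine ⟨memLp_finsetSum _ fun i _ => hc i, ?_⟩
  have hI : iIndepFun (fun (i : Fin n) (ω : Fin n → ℝ) => φ (ω i)) (pn w n) :=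
    iIndepFun_pi (X := fun _ x => φ x) (fun _ => hφ.aestronglyMeasurable.aemeasurable)
  have h1 := IndepFun.variance_sum (μ := pn w n) (X := fun (i : Fin n) (ω : Fin n → ℝ) => φ (ω i))
    (s := Finset.univ) (fun i _ => hc i) (fun i _ j _ hij => hI.indepFun hij)
  have h2 : (∑ i : Fin n, fun ω : Fin n → ℝ => φ (ω i)) = fun x : Fin n → ℝ => ∑ i, φ (x i) := by
    ext x
    simp
  rw [h2] at h1
  rw [h1]
  have h3 : ∀ i : Fin n, variance (fun x : Fin n → ℝ => φ (x i)) (pn w n) = variance φ (nu w) := by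
    intro i
    have := (hm i).map_eq
    rw [← this, variance_map (by rw [this]; exact hφ.aestronglyMeasurable.aemeasurable)
      (hm i).measurable.aemeasurable]
    rfl
  simp [h3]

/-- the variance of `∑ φ (x i)` under the conditioned law -/
theorem sum_var (h : LD w) (R : Fin n → Fin n → Prop) (h0 : pn w n (ord R) ≠ 0) (φ : ℝ → ℝ)
    (hφc : Continuous φ) (hφ : MemLp φ 2 (nu w)) :
    MemLp (fun x : EuclideanSpace ℝ (Fin n) => ∑ i, φ (x i)) 2 (law w R) ∧
    variance (fun x : EuclideanSpace ℝ (Fin n) => ∑ i, φ (x i)) (law w R) =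
      n * variance φ (nu w) := by
  have := nu_prob h
  have := pn_prob h n
  have := law_prob h R h0
  obtain ⟨h1, h2⟩ := sum_mean h n φ hφ
  have hc : Continuous (fun x : EuclideanSpace ℝ (Fin n) => ∑ i, φ (x i)) := by fun_prop
  have h3 := memLp_law R h0 (fun x => ∑ i, φ (x i)) hc 2 h1
  refine ⟨h3, ?_⟩
  rw [variance_eq_sub h3, ← h2, variance_eq_sub h1]
  have e1 : ∫ x, (fun x : EuclideanSpace ℝ (Fin n) => ∑ i, φ (x i)) x ∂(law w R) =
      ∫ x : Fin n → ℝ, ∑ i, φ (x i) ∂(pn w n) := by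
    refine int_sym h R h0 _ hc ?_ ?_
    · exact h1.integrable (by norm_num)
    · intro p x
      exact Equiv.sum_comp p (fun i => φ (x i))
  have e2 : ∫ x, (fun x : EuclideanSpace ℝ (Fin n) => (∑ i, φ (x i)) ^ 2) x ∂(law w R) =
      ∫ x : Fin n → ℝ, (∑ i, φ (x i)) ^ 2 ∂(pn w n) := by
    refine int_sym h R h0 _ (hc.pow 2) ?_ ?_
    · exact h1.integrable_sq
    · intro p x
      exact congrArg (· ^ 2) (Equiv.sum_comp p (fun i => φ (x i)))
  simp only [Pi.pow_apply] at e1 e2 ⊢
  rw [e1, e2]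

theorem t_VAR : S_VAR := by
  intro w n R h h0 hm
  exact sum_var h R h0 (fun x => x) continuous_id hm

end Pool.Agent.J4H98.OC
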