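import Pool.Agent.J4H98.OC.Var
import Pool.Agent.J4H21.OC.Ext

/-!
# The Poincaré constant of one point is not larger (OC-REV)
-/

set_option autoImplicit false

namespace Pool.Agent.J4H98.OC

open MeasureTheory Set Filter Topology ProbabilityTheory
open scoped ENNReal
open Pool.Agent.J4H58.OC

variable {n : ℕ} {w : ℝ → ℝ}

/-- the derivative of `∑ φ (x i)` -/
theorem fderiv_sum (φ : ℝ → ℝ) (hφ : ContDiff ℝ 1 φ) (x : EuclideanSpace ℝ (Fin n)) :
    ‖fderiv ℝ (fun x : EuclideanSpace ℝ (Fin n) => ∑ i, φ (x i)) x‖ ^ 2 =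
      ∑ i, deriv φ (x i) ^ 2 := by
  have h1 : HasFDerivAt (fun x : EuclideanSpace ℝ (Fin n) => ∑ i, φ (x i))
      (innerSL ℝ (WithLp.toLp 2 fun i => deriv φ (x i) : EuclideanSpace ℝ (Fin n))) x := by
    have h2 : ∀ i : Fin n, HasFDerivAt (fun x : EuclideanSpace ℝ (Fin n) => φ (x i))
        (deriv φ (x i) • (EuclideanSpace.proj i : EuclideanSpace ℝ (Fin n) →L[ℝ] ℝ)) x := by
      intro i
      have h3 : HasDerivAt φ (deriv φ (x i)) (x i) :=
        ((hφ.differentiable (by norm_num)) (x i)).hasDerivAt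
      exact h3.comp_hasFDerivAt x (EuclideanSpace.proj i :
        EuclideanSpace ℝ (Fin n) →L[ℝ] ℝ).hasFDerivAt
    have h4 := HasFDerivAt.fun_sum (u := Finset.univ) fun i _ => h2 i
    refine h4.congr_fderiv ?_
    ext v
    simp [PiLp.inner_apply, mul_comm]
  rw [h1.fderiv, innerSL_apply_norm, EuclideanSpace.norm_sq_eq]
  simp

/-- bounded continuous functions -/
theorem memLp_bdd {Ω : Type*} [MeasurableSpace Ω] (μ : Measure Ω) [IsProbabilityMeasure μ]
    (φ : Ω → ℝ) (hm : AEStronglyMeasurable φ μ) (B : ℝ) (hB : ∀ t, |φ t| ≤ B) (p : ℝ≥0∞) :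
    MemLp φ p μ :=
  MemLp.of_bound hm B (Eventually.of_forall hB)

theorem bdd_case (h : LD w) (hn : 1 ≤ n) (R : Fin n → Fin n → Prop) (h0 : pn w n (ord R) ≠ 0)
    (K : ℝ) (hK : 0 < K) (hP : Pool.Agent.J4H58.OC.PI (law w R) K) (φ : ℝ → ℝ) (hφ : ContDiff ℝ 1 φ)
    (B B' : ℝ) (hB : ∀ t, |φ t| ≤ B) (hB' : ∀ t, |deriv φ t| ≤ B') :
    variance φ (nu w) ≤ K * ∫ t, deriv φ t ^ 2 ∂(nu w) := by
  have := nu_prob h
  have := pn_prob h n
  have := law_prob h R h0
  have hL : MemLp φ 2 (nu w) := memLp_bdd _ φ hφ.continuous.aestronglyMeasurable B hB 2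
  obtain ⟨h1, h2⟩ := sum_var h R h0 φ hφ.continuous hL
  have hc : ContDiff ℝ 1 (fun x : EuclideanSpace ℝ (Fin n) => ∑ i, φ (x i)) := by
    apply ContDiff.sum
    intro i _
    exact hφ.comp (EuclideanSpace.proj i : EuclideanSpace ℝ (Fin n) →L[ℝ] ℝ).contDiff
  have h3 := hP _ hc
  have hdc : Continuous (deriv φ) := hφ.continuous_deriv (by norm_num)
  have h4 : ∫⁻ x, ENNReal.ofReal (‖fderiv ℝ (fun x : EuclideanSpace ℝ (Fin n) =>
      ∑ i, φ (x i)) x‖ ^ 2) ∂(law w R) = ENNReal.ofReal (n * ∫ t, deriv φ t ^ 2 ∂(nu w)) := by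
    simp_rw [fderiv_sum φ hφ]
    have hcc : Continuous (fun x : EuclideanSpace ℝ (Fin n) => ∑ i, deriv φ (x i) ^ 2) := by
      fun_prop
    have hi1 : ∀ i : Fin n, MemLp (fun x : Fin n → ℝ => deriv φ (x i) ^ 2) 1 (pn w n) := by
      intro i
      have hci : Continuous (fun x : Fin n → ℝ => deriv φ (x i) ^ 2) :=
        (hdc.comp (continuous_apply i)).pow 2
      refine memLp_bdd _ _ hci.aestronglyMeasurable (B' ^ 2) (fun x => ?_) 1
      rw [abs_of_nonneg (sq_nonneg _), ← sq_abs]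
      exact pow_le_pow_left₀ (abs_nonneg _) (hB' _) 2
    have hi2 : MemLp (fun x : Fin n → ℝ => ∑ i, deriv φ (x i) ^ 2) 1 (pn w n) :=
      memLp_finsetSum _ fun i _ => hi1 i
    have hi3 : MemLp (fun x : EuclideanSpace ℝ (Fin n) => ∑ i, deriv φ (x i) ^ 2) 1 (law w R) :=
      memLp_law R h0 _ hcc 1 hi2
    rw [← ofReal_integral_eq_lintegral_ofReal (memLp_one_iff_integrable.1 hi3)
      (Eventually.of_forall fun x => Finset.sum_nonneg fun i _ => sq_nonneg _)]
    congr 1
    rw [int_sym h R h0 (fun x => ∑ i, deriv φ (x i) ^ 2) hcc (memLp_one_iff_integrable.1 hi2)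
      (fun p x => Equiv.sum_comp p (fun i => deriv φ (x i) ^ 2))]
    change ∫ x : Fin n → ℝ, ∑ i, deriv φ (x i) ^ 2 ∂(pn w n) = _
    rw [integral_finsetSum _ fun i _ => memLp_one_iff_integrable.1 (hi1 i)]
    have h5 : ∀ i : Fin n, ∫ x : Fin n → ℝ, deriv φ (x i) ^ 2 ∂(pn w n) =
        ∫ t, deriv φ t ^ 2 ∂(nu w) := by
      intro i
      have hm : MeasurePreserving (fun x : Fin n → ℝ => x i) (pn w n) (nu w) :=
        measurePreserving_eval (fun _ : Fin n => nu w) i
      rw [← hm.map_eq, integral_map hm.measurable.aemeasurable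
        (by exact (hdc.pow 2).aestronglyMeasurable)]
    simp [h5]
  rw [h4, ← ofReal_variance h1, h2, ← ENNReal.ofReal_mul hK.le] at h3
  have hn' : (0 : ℝ) < n := by exact_mod_cast hn
  have h6 : 0 ≤ ∫ t, deriv φ t ^ 2 ∂(nu w) := integral_nonneg fun t => sq_nonneg _
  have h7 := (ENNReal.ofReal_le_ofReal_iff (by positivity)).1 h3
  have h8 : (n : ℝ) * variance φ (nu w) ≤ n * (K * ∫ t, deriv φ t ^ 2 ∂(nu w)) := by
    linarith [h7, mul_left_comm K (n : ℝ) (∫ t, deriv φ t ^ 2 ∂(nu w))]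
  exact le_of_mul_le_mul_left h8 hn'

/-- the line as `EuclideanSpace ℝ (Fin 1)` -/
noncomputable def L1 (t : ℝ) : EuclideanSpace ℝ (Fin 1) := WithLp.toLp 2 fun _ => t

theorem L1_cont : ContDiff ℝ 1 L1 := by
  have : L1 = fun t => t • L1 1 := by
    funext t
    ext i
    simp [L1]
  rw [this]
  exact contDiff_id.smul contDiff_const

theorem L1_deriv (t : ℝ) : HasDerivAt L1 (L1 1) t := by
  have : L1 = fun t => t • L1 1 := by
    funext t
    ext i
    simp [L1]
  rw [this]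
  simpa using (hasDerivAt_id t).smul_const (L1 1)

theorem L1_norm : ‖L1 1‖ = 1 := by
  simp [L1, EuclideanSpace.norm_eq]

theorem t_REV : S_REV := by
  intro w n R K h hn h0 hK hP φ hφ
  have := nu_prob h
  have hLc : Continuous L1 := L1_cont.continuous
  have hLm : AEMeasurable L1 (nu w) := hLc.measurable.aemeasurable
  let μ1 : Measure (EuclideanSpace ℝ (Fin 1)) := (nu w).map L1
  have : IsProbabilityMeasure μ1 := Measure.isProbabilityMeasure_map hLm
  have key := Pool.Agent.J4H21.OC.Ext.t_EXT 1 μ1 inferInstance K hK (by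
    intro f hf hfc
    have hc := hf.continuous
    have hdc : Continuous (fderiv ℝ f) := hf.continuous_fderiv (by norm_num)
    obtain ⟨B, hB⟩ := hfc.exists_bound_of_continuous hc
    obtain ⟨B', hB'⟩ := (hfc.fderiv (𝕜 := ℝ)).exists_bound_of_continuous hdc
    have hψ : ContDiff ℝ 1 (fun t => f (L1 t)) := hf.comp L1_cont
    have hψd : ∀ t, deriv (fun t => f (L1 t)) t = fderiv ℝ f (L1 t) (L1 1) := by
      intro t
      exact (((hf.differentiable (by norm_num)) (L1 t)).hasFDerivAt.comp_hasDerivAt t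
        (L1_deriv t)).deriv
    have hle : ∀ t, |deriv (fun t => f (L1 t)) t| ≤ ‖fderiv ℝ f (L1 t)‖ := by
      intro t
      rw [hψd, ← Real.norm_eq_abs]
      have := (fderiv ℝ f (L1 t)).le_opNorm (L1 1)
      rwa [L1_norm, mul_one] at this
    have h1 := bdd_case h hn R h0 K hK hP (fun t => f (L1 t)) hψ B B' (fun t => hB (L1 t))
      (fun t => (hle t).trans (hB' (L1 t)))
    have hm2 : MemLp (fun t => f (L1 t)) 2 (nu w) :=
      memLp_bdd _ _ hψ.continuous.aestronglyMeasurable B (fun t => hB (L1 t)) 2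
    rw [variance_eq_sub hm2] at h1
    rw [integral_map hLm (by exact (hc.pow 2).aestronglyMeasurable),
      integral_map hLm hc.aestronglyMeasurable,
      integral_map hLm (by exact (hdc.norm.pow 2).aestronglyMeasurable)]
    refine le_trans h1 ?_
    apply mul_le_mul_of_nonneg_left _ hK.le
    have hdc2 : Continuous (fun t => ‖fderiv ℝ f (L1 t)‖ ^ 2) := (hdc.norm.pow 2).comp hLc
    have hi : Integrable (fun t => ‖fderiv ℝ f (L1 t)‖ ^ 2) (nu w) := by
      refine memLp_one_iff_integrable.1 (memLp_bdd _ _ hdc2.aestronglyMeasurable (B' ^ 2)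
        (fun t => ?_) 1)
      rw [abs_of_nonneg (sq_nonneg _)]
      exact pow_le_pow_left₀ (norm_nonneg _) (hB' _) 2
    refine integral_mono_of_nonneg (Eventually.of_forall fun t => sq_nonneg _) hi
      (Eventually.of_forall fun t => ?_)
    show deriv (fun t => f (L1 t)) t ^ 2 ≤ ‖fderiv ℝ f (L1 t)‖ ^ 2
    rw [← sq_abs]
    exact pow_le_pow_left₀ (abs_nonneg _) (hle t) 2)
    (fun x => φ (x 0))
    (hφ.comp (EuclideanSpace.proj (0 : Fin 1) : EuclideanSpace ℝ (Fin 1) →L[ℝ] ℝ).contDiff)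
  have e1 : evariance (fun x : EuclideanSpace ℝ (Fin 1) => φ (x 0)) μ1 = evariance φ (nu w) := by
    have hc : Continuous (fun x : EuclideanSpace ℝ (Fin 1) => φ (x 0)) := by
      have := hφ.continuous
      fun_prop
    unfold evariance
    rw [integral_map hLm hc.aestronglyMeasurable]
    rw [lintegral_map ((hc.measurable.sub_const _).enorm.pow_const 2) hLc.measurable]
    rfl
  have e2 : ∫⁻ x, ENNReal.ofReal (‖fderiv ℝ (fun x : EuclideanSpace ℝ (Fin 1) => φ (x 0)) x‖ ^ 2)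
      ∂μ1 = ∫⁻ t, ENNReal.ofReal (deriv φ t ^ 2) ∂(nu w) := by
    have hs : (fun x : EuclideanSpace ℝ (Fin 1) => φ (x 0)) =
        fun x : EuclideanSpace ℝ (Fin 1) => ∑ i, φ (x i) := by
      funext x
      simp
    rw [hs]
    simp_rw [fderiv_sum φ hφ]
    have hdc : Continuous (deriv φ) := hφ.continuous_deriv (by norm_num)
    rw [lintegral_map (by fun_prop) hLc.measurable]
    refine lintegral_congr fun t => ?_
    simp [L1]
  rw [e1, e2] at key
  exact key

end Pool.Agent.J4H98.OC
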